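import Mathlib
import Pool.Agent.Results.MP_18f3df_al.Yes

namespace Pool.Agent.Results.MP_c74e51_al.Urysohn

open Set Pool.Agent.Results.MP_18f3df_al.Yes

/-- `H` generates `F`: `F` is the smallest clone containing `H`. -/
def Generates {A : Type} (H : Set (Σ n, (Fin (n + 1) → A) → A)) (F : Ops A) : Prop :=
  IsClone F ∧ (∀ h ∈ H, h.2 ∈ F h.1) ∧ ∀ C : Ops A, IsClone C → (∀ h ∈ H, h.2 ∈ C h.1) → F ≤ C

/-- The Bergman property; `lev H i m` is the set of operations of arity `m + 1` given by terms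
over `H` of depth at most `i`. -/
def Bergman {A : Type} (F : Ops A) : Prop :=
  ∀ H, Generates H F → ∀ m, ∃ i, lev H i m = F m

lemma lev_comp {A : Type} (G : Set (Σ n, (Fin (n + 1) → A) → A)) (a b n m : ℕ)
    (f : (Fin (n + 1) → A) → A) (hf : f ∈ lev G a n) (t : Fin (n + 1) → (Fin (m + 1) → A) → A)
    (ht : ∀ i, t i ∈ lev G b m) : (fun x => f (fun i => t i x)) ∈ lev G (b + a) m := by
  induction a generalizing f with
  | zero => obtain ⟨i, rfl⟩ := hf; exact ht i
  | succ k ih =>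
    rcases hf with hk | hk
    · exact Or.inl (ih f hk)
    · obtain ⟨g, hg, r, hr, rfl⟩ := mem_iUnion₂.1 hk
      exact Or.inr (mem_iUnion₂.2 ⟨g, hg, fun i x => r i (fun j => t j x), fun i => ih _ (hr i), rfl⟩)

lemma lev_clone {A : Type} (G : Set (Σ n, (Fin (n + 1) → A) → A)) :
    IsClone (fun m => ⋃ k, lev G k m) ∧ ∀ g ∈ G, g.2 ∈ ⋃ k, lev G k g.1 := by
  refine ⟨⟨fun m i => mem_iUnion.2 ⟨0, i, rfl⟩, fun n m f t hf ht => ?_⟩, fun g hg => ?_⟩
  · simp only [mem_iUnion] at hf ht ⊢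
    obtain ⟨a, ha⟩ := hf
    choose k hk using ht
    exact ⟨_, lev_comp G a (Finset.univ.sup k) n m f ha t
      fun i => lev_mono G m (Finset.le_sup (Finset.mem_univ i)) (hk i)⟩
  · exact mem_iUnion.2 ⟨1, Or.inr (mem_iUnion₂.2 ⟨g, hg, fun i x => x i, fun i => ⟨i, rfl⟩, rfl⟩)⟩

lemma lev_sub {A : Type} (G : Set (Σ n, (Fin (n + 1) → A) → A)) (P : Ops A) (hP : IsClone P)
    (h : ∀ g ∈ G, g.2 ∈ P g.1) (k m : ℕ) : lev G k m ⊆ P m := by
  induction k with
  | zero => rintro _ ⟨i, rfl⟩; exact hP.1 _ i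
  | succ k ih =>
    refine union_subset ih (iUnion₂_subset fun g hg => ?_)
    rintro _ ⟨r, hr, rfl⟩
    exact hP.2 _ _ _ r (h g hg) (fun i => ih (hr i))

variable {U : Type} [MetricSpace U]

lemma mx (D : Set ℝ) : ∀ r ∈ D, ∀ s ∈ D, max r s ∈ D := fun r hr s hs => by
  rcases max_choice r s with h | h <;> rwa [h]

lemma one : (1 : ℝ) ∈ QP := ⟨zero_le_one, 1, by simp⟩

lemma cap1 : Cap QP id := ⟨subset_rfl, fun _ h => h, fun _ _ => rfl, monotone_id,
  fun _ _ _ _ => le_rfl, fun _ => le_rfl, one, mx _⟩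

lemma cap2 : Cap (QP ∩ Iic 1) (fun r => min r 1) := by
  refine ⟨inter_subset_left, fun r hr => ⟨?_, mem_Iic.2 (min_le_right _ _)⟩,
    fun r hr => min_eq_left hr.2, fun a b h => min_le_min_right _ h, fun r s hr hs => ?_,
    fun r => min_le_left _ _, ⟨one, self_mem_Iic⟩, mx _⟩
  · rcases min_choice r 1 with h | h <;> rw [h]
    exacts [hr, one]
  · simp only [min_def]; split_ifs <;> linarith

lemma ne {D : Set ℝ} {τ : ℝ → ℝ} (hU : IsUrysohn U D) (hc : Cap D τ) : Nonempty U := by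
  obtain ⟨e, -⟩ := hU.univ Unit (fun x y => by
    have := hc.mem 0 ⟨le_rfl, 0, by simp⟩
    rwa [le_antisymm (hc.le 0) (hc.sub this).1] at this)
  exact ⟨e ()⟩

lemma space (hU : IsUrysohn U QP) : ¬ Bergman (Pol U) := by
  obtain ⟨o⟩ := ne hU cap1
  intro hB
  let H : Set (Σ n, (Fin (n + 1) → U) → U) :=
    {h | LipschitzWith 1 h.2 ∧ dist (h.2 fun _ => o) o ≤ 1}
  obtain ⟨i, hi⟩ := hB H ⟨pol_clone, fun h hh => hh.1, fun C hC hH n f hf => by
    obtain ⟨N, hN⟩ := exists_nat_ge (dist (f fun _ => o) o)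
    induction N generalizing f with
    | zero => exact hH ⟨n, f⟩ ⟨hf, hN.trans (by simp)⟩
    | succ N ih =>
      obtain ⟨w, hw⟩ := hyp hU cap1 Finset.univ ⟨true, Finset.mem_univ _⟩
        (fun b => cond b o (f fun _ => o)) (fun b => cond b 1 (N : ℝ)) (by
          rintro (_ | _)
          · exact ⟨Nat.cast_nonneg N, N, by simp⟩
          · exact one) (by
          have : (0 : ℝ) ≤ N := by positivity
          push_cast at hN
          rintro (_ | _) - (_ | _) - <;> simp only [cond, dist_self, dist_comm o] <;> linarith)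
      obtain ⟨g, hg⟩ := hU.homog {o} (fun _ => w) (by simp)
      have go : g o = w := hg o (by simp)
      have h1 := ih (fun x => g.symm (f x)) (lc g.symm.isometry.lipschitz hf) (by
        rw [← g.dist_eq, g.apply_symm_apply, go, dist_comm]; exact hw false (Finset.mem_univ _))
      have h2 := hH ⟨0, fun x => g (x 0)⟩ ⟨lc (g := fun x : Fin 1 → U => x 0)
        g.isometry.lipschitz (LipschitzWith.eval 0),
        by simpa [go] using hw true (Finset.mem_univ _)⟩
      simpa using hC.2 0 n _ (fun _ x => g.symm (f x)) h2 (fun _ => h1)⟩ 0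
  have bd : ∀ k, ∀ t ∈ lev H k 0, dist (t fun _ => o) o ≤ k := by
    intro k
    induction k with
    | zero => rintro _ ⟨i, rfl⟩; simp
    | succ k ih =>
      rintro t (ht | ht)
      · exact (ih t ht).trans (by simp)
      · obtain ⟨g, hg, r, hr, rfl⟩ := mem_iUnion₂.1 ht
        refine (dist_triangle _ (g.2 fun _ => o) _).trans ?_
        push_cast
        refine add_le_add ((hg.1.dist_le_mul _ _).trans ?_) hg.2
        simp only [NNReal.coe_one, one_mul]
        exact (dist_pi_le_iff (by positivity)).2 fun i => ih _ (hr i)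
  obtain ⟨y, hy⟩ := kat hU cap1 {()} (by simp) (fun _ => o) (fun _ => (i + 1 : ℝ))
    (fun _ => ⟨by positivity, i + 1, by simp⟩) (fun _ _ _ _ => by simp; positivity) {o}
  have := bd i (fun _ => y) (hi ▸ (LipschitzWith.const y).weaken zero_le_one)
  rw [hy o (by simp)] at this
  simp at this
  linarith

lemma sphere (hU : IsUrysohn U (QP ∩ Iic 1)) : Bergman (Pol U) := by
  classical
  haveI := ne hU cap2
  haveI := hU.countable
  intro H hH k
  have mem : ∀ n (f : (Fin (n + 1) → U) → U), LipschitzWith 1 f → ∃ i, f ∈ lev H i n :=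
    fun n f hf => mem_iUnion.1 (hH.2.2 _ (lev_clone H).1 (lev_clone H).2 n hf)
  have mem1 : ∀ f : U → U, LipschitzWith 1 f → ∃ i, ∀ b, ∀ g ∈ lev H b k,
      (fun x => f (g x)) ∈ lev H (b + i) k := by
    intro f hf
    obtain ⟨i, hi⟩ := mem 0 (fun x => f (x 0)) (lc hf (LipschitzWith.eval 0))
    exact ⟨i, fun b g hg => lev_comp H i b 0 k _ hi (fun _ => g) (fun _ => hg)⟩
  by_contra hcon
  push Not at hcon
  have : ∀ i, ∃ f : (Fin (k + 1) → U) → U, LipschitzWith 1 f ∧ f ∉ lev H i k := fun i => by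
    by_contra h
    push Not at h
    exact hcon i (Subset.antisymm (lev_sub H _ pol_clone hH.2.1 i k) h)
  choose f hf hf' using this
  have d1 : ∀ x y : U, dist x y ≤ 1 := fun x y => (hU.dist_mem x y).2
  obtain ⟨e, he, hx⟩ := nice hU cap2 (X := ℕ × (Fin (k + 1) → U))
    (fun a b => if a.1 = b.1 then dist a.2 b.2 else 1) (by simp)
    (fun a b => by simp only [eq_comm (a := a.1), dist_comm a.2])
    (fun a b c => by
      have h1 : dist a.2 c.2 ≤ 1 := (dist_pi_le_iff zero_le_one).2 fun i => d1 _ _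
      have := dist_triangle a.2 b.2 c.2
      have := @dist_nonneg _ _ a.2 b.2
      have := @dist_nonneg _ _ b.2 c.2
      split_ifs <;> first | linarith | omega)
    (fun a b => by
      split_ifs
      · obtain ⟨i, -, hi⟩ := Finset.univ.exists_mem_eq_sup Finset.univ_nonempty
          fun i => nndist (a.2 i) (b.2 i)
        rw [dist_pi_def, hi]
        exact hU.dist_mem _ _
      · exact cap2.one)
  obtain ⟨A, hA, hA'⟩ := hx (fun a => e (a.1 + 1, a.2)) (fun a b => by rw [he]; simp)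
  obtain ⟨F, hF, hF'⟩ := hx (fun a => f (a.1 * a.1) a.2) (fun a b => by
    split_ifs with h
    · rw [h]; simpa using (hf _).dist_le_mul a.2 b.2
    · exact d1 _ _)
  obtain ⟨i1, g1⟩ := mem1 F hF
  obtain ⟨i2, g2⟩ := mem1 A hA
  obtain ⟨i3, g3⟩ := mem k (fun x => e (0, x)) (LipschitzWith.mk_one fun x y => by rw [he]; simp)
  have it : ∀ j, (fun x => e (j, x)) ∈ lev H (i3 + j * i2) k := by
    intro j
    induction j with
    | zero => simpa using g3
    | succ j ih =>
      have := g2 _ _ ih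
      simp only [hA'] at this
      rwa [add_mul, one_mul, ← add_assoc]
  have := g1 _ _ (it (i1 + i2 + i3 + 1))
  simp only [hF'] at this
  exact hf' _ (lev_mono H k (by nlinarith) this)

theorem result (U : Type) [MetricSpace U] :
    (IsUrysohn U QP → ¬ Bergman (Pol U)) ∧ (IsUrysohn U (QP ∩ Iic 1) → Bergman (Pol U)) :=
  ⟨space, sphere⟩

end Pool.Agent.Results.MP_c74e51_al.Urysohn
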